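import Pool.Agent.K1H53.BI.Plan5

/-! Project BI part 3 (owner helper53), piece EXPO (task 19576): the exponential supermartingale. -/

set_option autoImplicit false

open scoped ENNReal
open Finset Pool.Agent.K1H53.BI

namespace Pool.Agent.K1H26.BI5

section defs

variable (θ : ℝ) (G : V → V → ℝ) (z : V) (w : V → ℝ)

/-- The exponent of a moving particle. -/
noncomputable def ph (y : V) : ℝ := -θ * G y z + θ ^ 2 * w y

/-- The exponent of a state. -/
noncomputable def exo (s : St) : ℝ :=
  ∑ y ∈ s.A, (-θ * G y z) + (s.L.map (ph θ G z w)).sum + s.m * ph θ G z w 0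

/-- The supermartingale. -/
noncomputable def KK (s : St) : ℝ≥0∞ :=
  if z ∈ s.A then 0 else ENNReal.ofReal (Real.exp (exo θ G z w s))

end defs

variable {θ : ℝ} {G : V → V → ℝ} {z : V} {w : V → ℝ}

theorem KK_put (hw : ∀ x, 0 ≤ w x) (s : St) (y : V) :
    KK θ G z w (put s y) ≤ KK θ G z w s * ENNReal.ofReal (Real.exp (ph θ G z w y)) := by
  unfold put
  by_cases hy : y ∈ s.A
  · rw [if_pos hy]
    unfold KK exo
    simp only
    by_cases hz : z ∈ s.A
    · rw [if_pos hz]; exact zero_le
    · rw [if_neg hz, if_neg hz, ← ENNReal.ofReal_mul (Real.exp_pos _).le, ← Real.exp_add]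
      apply le_of_eq
      congr 2
      simp only [List.map_cons, List.sum_cons]
      ring
  · rw [if_neg hy]
    unfold KK exo
    simp only
    by_cases hz : z ∈ insert y s.A
    · rw [if_pos hz]; exact zero_le
    · have hz' : z ∉ s.A := fun h => hz (Finset.mem_insert_of_mem h)
      rw [if_neg hz, if_neg hz', ← ENNReal.ofReal_mul (Real.exp_pos _).le, ← Real.exp_add]
      apply ENNReal.ofReal_le_ofReal
      apply Real.exp_le_exp.mpr
      rw [Finset.sum_insert hy]
      have h1 : -θ * G y z ≤ ph θ G z w y := by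
        unfold ph
        have := mul_nonneg (sq_nonneg θ) (hw y)
        linarith
      linarith

theorem Ex_unif (f : V → ℝ) (hf : ∀ y, 0 ≤ f y) (x : V) :
    Ex (PMF.uniformOfFintype (Fin 3 × Bool)) (fun e => ENNReal.ofReal (f (x + dir e))) =
      ENNReal.ofReal (av f x) := by
  unfold Ex av
  rw [tsum_fintype]
  have h6 : (Fintype.card (Fin 3 × Bool)) = 6 := by simp
  simp only [PMF.uniformOfFintype_apply, h6]
  rw [← Finset.mul_sum, ENNReal.ofReal_div_of_pos (by norm_num),
    ENNReal.ofReal_sum_of_nonneg (fun e _ => hf _), div_eq_mul_inv, mul_comm]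
  congr 1
  norm_num

theorem Ex_children (hw : ∀ x, 0 ≤ w x) (x : V) : ∀ (k : ℕ) (s : St),
    Ex (children x k s) (KK θ G z w) ≤
      KK θ G z w s * (ENNReal.ofReal (av (fun y => Real.exp (ph θ G z w y)) x)) ^ k := by
  intro k
  induction k with
  | zero => intro s; simp [children, Ex_pure]
  | succ k ih =>
    intro s
    obtain ⟨q, hq⟩ : ∃ q, q = ENNReal.ofReal (av (fun y => Real.exp (ph θ G z w y)) x) := ⟨_, rfl⟩
    rw [← hq] at ih ⊢
    have e : children x (k + 1) s = (PMF.uniformOfFintype (Fin 3 × Bool)).bind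
      fun e => children x k (put s (x + dir e)) := rfl
    rw [e, Ex_bind]
    calc Ex (PMF.uniformOfFintype (Fin 3 × Bool))
          (fun e => Ex (children x k (put s (x + dir e))) (KK θ G z w))
        ≤ Ex (PMF.uniformOfFintype (Fin 3 × Bool)) (fun e => (KK θ G z w s * q ^ k) *
            ENNReal.ofReal (Real.exp (ph θ G z w (x + dir e)))) := by
          apply Ex_mono
          intro e _
          refine (ih (put s (x + dir e))).trans ?_
          calc KK θ G z w (put s (x + dir e)) * q ^ k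
              ≤ (KK θ G z w s * ENNReal.ofReal (Real.exp (ph θ G z w (x + dir e)))) * q ^ k :=
                mul_le_mul_left (KK_put hw s _) _
            _ = (KK θ G z w s * q ^ k) *
                ENNReal.ofReal (Real.exp (ph θ G z w (x + dir e))) := by ring
      _ = (KK θ G z w s * q ^ k) * Ex (PMF.uniformOfFintype (Fin 3 × Bool))
            (fun e => ENNReal.ofReal (Real.exp (ph θ G z w (x + dir e)))) := Ex_const_mul _ _ _
      _ = KK θ G z w s * q ^ (k + 1) := by
          rw [Ex_unif (fun y => Real.exp (ph θ G z w y)) (fun y => (Real.exp_pos _).le) x, ← hq]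
          ring

theorem num (C₂ u₀ θ₀ : ℝ) (hC₂ : 0 < C₂) (h1 : θ₀ ≤ 1 / 2) (h2 : θ₀ ≤ u₀ / 4)
    (φ : Fin 3 × Bool → ℝ) (hφ : ∀ e, |φ e| ≤ θ₀) (p : ℝ)
    (hp : p = (∑ e, Real.exp (φ e)) / 6 - 1) :
    |p| ≤ u₀ ∧ 1 + p + C₂ * p ^ 2 ≤
      1 + (∑ e, φ e) / 6 + (1 + 4 * C₂) * ((∑ e, φ e ^ 2) / 6) := by
  have h0 : 0 ≤ θ₀ := (abs_nonneg _).trans (hφ (0, true))
  have hcard : (Finset.univ : Finset (Fin 3 × Bool)).card = 6 := by simp
  obtain ⟨S1, hS1⟩ : ∃ S1, S1 = (∑ e, φ e) / 6 := ⟨_, rfl⟩
  obtain ⟨S2, hS2⟩ : ∃ S2, S2 = (∑ e, φ e ^ 2) / 6 := ⟨_, rfl⟩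
  rw [← hS1, ← hS2]
  have a1 : S1 ≤ p := by
    have : ∑ e : Fin 3 × Bool, (φ e + 1) ≤ ∑ e, Real.exp (φ e) :=
      Finset.sum_le_sum (fun e _ => Real.add_one_le_exp _)
    rw [Finset.sum_add_distrib, Finset.sum_const, hcard] at this
    rw [hS1, hp]
    simp only [nsmul_eq_mul] at this
    push_cast at this
    linarith
  have a2 : p ≤ S1 + S2 := by
    have : ∑ e, Real.exp (φ e) ≤ ∑ e : Fin 3 × Bool, (φ e + 1 + φ e ^ 2) := by
      apply Finset.sum_le_sum
      intro e _
      have h3 := Real.abs_exp_sub_one_sub_id_le (x := φ e) ((hφ e).trans (by linarith))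
      have h4 := (abs_le.mp h3).2
      linarith
    rw [Finset.sum_add_distrib, Finset.sum_add_distrib, Finset.sum_const, hcard] at this
    rw [hS1, hS2, hp]
    simp only [nsmul_eq_mul] at this
    push_cast at this
    linarith
  have a3 : |S1| ≤ θ₀ := by
    rw [hS1, abs_div, abs_of_pos (by norm_num : (0 : ℝ) < 6), div_le_iff₀ (by norm_num)]
    calc |∑ e, φ e| ≤ ∑ e, |φ e| := Finset.abs_sum_le_sum_abs _ _
      _ ≤ ∑ _e : Fin 3 × Bool, θ₀ := Finset.sum_le_sum (fun e _ => hφ e)
      _ = θ₀ * 6 := by rw [Finset.sum_const, hcard]; simp; ring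
  have a4 : 0 ≤ S2 := by
    rw [hS2]
    exact div_nonneg (Finset.sum_nonneg (fun e _ => sq_nonneg _)) (by norm_num)
  have a5 : S2 ≤ θ₀ ^ 2 := by
    rw [hS2, div_le_iff₀ (by norm_num)]
    calc ∑ e, φ e ^ 2 ≤ ∑ _e : Fin 3 × Bool, θ₀ ^ 2 := by
          apply Finset.sum_le_sum
          intro e _
          rw [← sq_abs]
          exact pow_le_pow_left₀ (abs_nonneg _) (hφ e) 2
      _ = θ₀ ^ 2 * 6 := by rw [Finset.sum_const, hcard]; simp; ring
  have a6 : S1 ^ 2 ≤ S2 := by
    have := sq_sum_le_card_mul_sum_sq (s := (Finset.univ : Finset (Fin 3 × Bool))) (f := φ)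
    rw [hcard] at this
    push_cast at this
    rw [hS1, hS2, div_pow]
    rw [div_le_div_iff₀ (by norm_num) (by norm_num)]
    nlinarith
  have a7 : S2 ≤ 1 / 4 := by nlinarith
  have a8 : S2 ≤ θ₀ / 2 := by nlinarith
  have b1 := (abs_le.mp a3).1
  have b2 := (abs_le.mp a3).2
  refine ⟨?_, ?_⟩
  · rw [abs_le]
    constructor <;> linarith
  · have hp2 : p ^ 2 ≤ 4 * S2 := by
      have c1 : |p| ≤ |S1| + S2 := by
        rw [abs_le]
        constructor
        · have := neg_abs_le S1
          linarith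
        · have := le_abs_self S1
          linarith
      have c2 : p ^ 2 ≤ (|S1| + S2) ^ 2 := by
        rw [← sq_abs p]
        exact pow_le_pow_left₀ (abs_nonneg _) c1 2
      have c3 : (|S1| + S2) ^ 2 ≤ 2 * S1 ^ 2 + 2 * S2 ^ 2 := by
        have := sq_nonneg (|S1| - S2)
        have e := sq_abs S1
        nlinarith
      have c4 : S2 ^ 2 ≤ S2 / 4 := by nlinarith
      linarith
    have : C₂ * p ^ 2 ≤ C₂ * (4 * S2) := mul_le_mul_of_nonneg_left hp2 hC₂.le
    nlinarith

theorem step_le {ν : PMF ℕ} {C₂ u₀ θ₀ : ℝ} {R : ℕ} (hC₂ : 0 < C₂) (h1 : θ₀ ≤ 1 / 2)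
    (h2 : θ₀ ≤ u₀ / 4)
    (hL : ∀ u : ℝ, |u| ≤ u₀ →
      Ex ν (fun k => ENNReal.ofReal (Real.exp (u * k))) ≤ ENNReal.ofReal (1 + u + C₂ * u ^ 2))
    (hG : IsGreen R G) (hz : nsq z ≤ R ^ 2) (hθ : 0 < θ) (hθG : ∀ x, θ * G x z ≤ θ₀)
    (hθw : ∀ x, θ ^ 2 * w x ≤ θ₀) (hw : ∀ x, 0 ≤ w x)
    (hC : ∀ x ∈ BR R, 2 * (1 + 4 * C₂) *
      (av (fun y => (G y z) ^ 2) x + θ ^ 2 * av (fun y => (w y) ^ 2) x) ≤ w x - av w x)
    (s : St) (hs : ∀ x ∈ s.L, x ∈ s.A) :
    Ex (stepF ν R s) (KK θ G z w) ≤ KK θ G z w s := by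
  unfold stepF
  split_ifs with hA hm
  · obtain ⟨x, hx⟩ : ∃ x, x = sel R s := ⟨_, rfl⟩
    rw [← hx]
    have hx1 : x ∈ s.L ∧ nsq x ≤ R ^ 2 := by
      rw [hx]; unfold sel; rw [dif_pos hA]; exact hA.choose_spec
    unfold top
    rw [Ex_bind]
    obtain ⟨s', hs'⟩ : ∃ s' : St, s' = ⟨s.A, s.L.erase x, s.m⟩ := ⟨_, rfl⟩
    rw [← hs']
    by_cases hzA : z ∈ s.A
    · have h0 : KK θ G z w s' = 0 := by
        rw [hs']; unfold KK; rw [if_pos hzA]
      calc Ex ν (fun k => Ex (children x k s') (KK θ G z w)) ≤ Ex ν (fun _ => 0) := by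
            apply Ex_mono
            intro k _
            have := Ex_children (θ := θ) (G := G) (z := z) hw x k s'
            rw [h0, zero_mul] at this
            exact this
        _ = 0 := by rw [Ex_const]
        _ ≤ _ := zero_le
    · have hxz : x ≠ z := by
        rintro rfl
        exact hzA (hs _ hx1.1)
      have hK : KK θ G z w s' * ENNReal.ofReal (Real.exp (ph θ G z w x)) = KK θ G z w s := by
        rw [hs']
        unfold KK exo
        simp only
        rw [if_neg hzA, if_neg hzA, ← ENNReal.ofReal_mul (Real.exp_pos _).le, ← Real.exp_add]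
        congr 2
        have h3 : (s.L.map (ph θ G z w)).sum =
            ph θ G z w x + ((s.L.erase x).map (ph θ G z w)).sum := by
          have := ((List.perm_cons_erase hx1.1).map (ph θ G z w)).sum_eq
          simpa using this
        rw [h3]; ring
      obtain ⟨p, hp⟩ : ∃ p, p = (∑ e, Real.exp (ph θ G z w (x + dir e))) / 6 - 1 := ⟨_, rfl⟩
      have hab : ∀ y, |ph θ G z w y| ≤ θ₀ := by
        intro y
        unfold ph
        have c1 := hθG y
        have c2 := hθw y
        have c3 : 0 ≤ θ * G y z := mul_nonneg hθ.le (hG.nonneg y z)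
        have c4 : 0 ≤ θ ^ 2 * w y := mul_nonneg (sq_nonneg _) (hw y)
        rw [abs_le]
        constructor <;> linarith
      obtain ⟨n1, n2⟩ := num C₂ u₀ θ₀ hC₂ h1 h2 (fun e => ph θ G z w (x + dir e))
        (fun e => hab _) p hp
      have hQ : av (fun y => Real.exp (ph θ G z w y)) x = 1 + p := by
        rw [hp]; unfold av; ring
      have hQ0 : 0 ≤ 1 + p := by
        rw [← hQ]; unfold av
        exact div_nonneg (Finset.sum_nonneg (fun e _ => (Real.exp_pos _).le)) (by norm_num)
      -- the key inequality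
      have key : 1 + p + C₂ * p ^ 2 ≤ Real.exp (ph θ G z w x) := by
        refine n2.trans (le_trans ?_ (Real.add_one_le_exp _))
        have m1 : (∑ e, ph θ G z w (x + dir e)) / 6 =
            ph θ G z w x - θ ^ 2 * (w x - av w x) := by
          have e1 : (∑ e, ph θ G z w (x + dir e)) / 6 =
              -θ * av (fun y => G y z) x + θ ^ 2 * av w x := by
            unfold ph av
            rw [Finset.sum_add_distrib, ← Finset.mul_sum, ← Finset.mul_sum]
            ring
          have e2 := hG.eq x z hx1.2 hz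
          rw [if_neg hxz, sub_zero] at e2
          rw [e1, e2]
          unfold ph
          ring
        have m2 : (∑ e, ph θ G z w (x + dir e) ^ 2) / 6 ≤
            2 * θ ^ 2 * (av (fun y => (G y z) ^ 2) x + θ ^ 2 * av (fun y => (w y) ^ 2) x) := by
          have e1 : 2 * θ ^ 2 * (av (fun y => (G y z) ^ 2) x + θ ^ 2 * av (fun y => (w y) ^ 2) x) =
              (∑ e, (2 * θ ^ 2 * (G (x + dir e) z) ^ 2 +
                2 * θ ^ 4 * (w (x + dir e)) ^ 2)) / 6 := by
            unfold av
            rw [Finset.sum_add_distrib, ← Finset.mul_sum, ← Finset.mul_sum]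
            ring
          rw [e1]
          apply div_le_div_of_nonneg_right _ (by norm_num)
          apply Finset.sum_le_sum
          intro e _
          unfold ph
          nlinarith [sq_nonneg (θ * G (x + dir e) z + θ ^ 2 * w (x + dir e))]
        have m3 := hC x (mem_BR.mpr hx1.2)
        have m4 : (1 + 4 * C₂) * ((∑ e, ph θ G z w (x + dir e) ^ 2) / 6) ≤
            θ ^ 2 * (w x - av w x) := by
          calc (1 + 4 * C₂) * ((∑ e, ph θ G z w (x + dir e) ^ 2) / 6)
              ≤ (1 + 4 * C₂) * (2 * θ ^ 2 *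
                (av (fun y => (G y z) ^ 2) x + θ ^ 2 * av (fun y => (w y) ^ 2) x)) :=
                mul_le_mul_of_nonneg_left m2 (by positivity)
            _ = θ ^ 2 * (2 * (1 + 4 * C₂) *
                (av (fun y => (G y z) ^ 2) x + θ ^ 2 * av (fun y => (w y) ^ 2) x)) := by ring
            _ ≤ θ ^ 2 * (w x - av w x) := mul_le_mul_of_nonneg_left m3 (sq_nonneg _)
        rw [m1]
        linarith
      calc Ex ν (fun k => Ex (children x k s') (KK θ G z w))
          ≤ Ex ν (fun k => KK θ G z w s' * ENNReal.ofReal (Real.exp (p * k))) := by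
            apply Ex_mono
            intro k _
            refine (Ex_children hw x k s').trans ?_
            apply mul_le_mul_right
            rw [hQ, ← ENNReal.ofReal_pow hQ0]
            apply ENNReal.ofReal_le_ofReal
            have e1 : Real.exp (p * k) = Real.exp p ^ k := by
              rw [mul_comm]; exact Real.exp_nat_mul p k
            rw [e1]
            apply pow_le_pow_left₀ hQ0
            have := Real.add_one_le_exp p
            linarith
        _ = KK θ G z w s' * Ex ν (fun k => ENNReal.ofReal (Real.exp (p * k))) :=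
            Ex_const_mul _ _ _
        _ ≤ KK θ G z w s' * ENNReal.ofReal (1 + p + C₂ * p ^ 2) :=
            mul_le_mul_right (hL p n1) _
        _ ≤ KK θ G z w s' * ENNReal.ofReal (Real.exp (ph θ G z w x)) :=
            mul_le_mul_right (ENNReal.ofReal_le_ofReal key) _
        _ = KK θ G z w s := hK
  · rw [Ex_pure]
  · rw [Ex_pure]
    apply le_of_eq
    unfold KK exo lau
    simp only
    by_cases hzA : z ∈ s.A
    · rw [if_pos hzA, if_pos hzA]
    · rw [if_neg hzA, if_neg hzA]
      congr 2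
      have h1 : ((s.m - 1 : ℕ) : ℝ) = (s.m : ℝ) - 1 := by
        rw [Nat.cast_sub (Nat.one_le_iff_ne_zero.mpr hm), Nat.cast_one]
      rw [h1]
      simp only [List.map_cons, List.sum_cons]
      ring

theorem t_EXPO : S_EXPO := by
  intro hlapl hinvf ν hν
  obtain ⟨u₀, C₂, hu₀, hC₂, hL⟩ := hlapl ν hν
  refine ⟨2 * (1 + 4 * C₂), min (1 / 2) (u₀ / 4), by positivity, by positivity, ?_⟩
  intro R T n G z w θ hG hz hθ hT hθG hθw hw hwo hC
  have hrun : ∀ n, Ex (run (stepF ν R) ⟨{0}, [], T - 1⟩ n) (KK θ G z w) ≤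
      KK θ G z w ⟨{0}, [], T - 1⟩ := by
    intro n
    induction n with
    | zero => unfold run; rw [Ex_pure]
    | succ n ih =>
      have e : run (stepF ν R) ⟨{0}, [], T - 1⟩ (n + 1) =
        (run (stepF ν R) ⟨{0}, [], T - 1⟩ n).bind (stepF ν R) := rfl
      rw [e, Ex_bind]
      refine le_trans ?_ ih
      apply Ex_mono
      intro s hs
      have hsA := (hinvf.1 ν R n ⟨{0}, [], T - 1⟩ s rfl (Finset.mem_singleton_self _) hs).2
      exact step_le hC₂ (min_le_left _ _) (min_le_right _ _) hL hG hz hθ hθG hθw hw hC s hsA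
  obtain ⟨Sg, hSg⟩ : ∃ Sg, Sg = ∑ y ∈ BR R, G y z := ⟨_, rfl⟩
  rw [← hSg]
  have h1 : Ex (run (stepF ν R) ⟨{0}, [], T - 1⟩ n) (ind fun s => z ∉ s.A ∧ Froz R s) ≤
      Ex (run (stepF ν R) ⟨{0}, [], T - 1⟩ n)
        (fun s => ENNReal.ofReal (Real.exp (θ * Sg)) * KK θ G z w s) := by
    apply Ex_mono
    intro s hs
    by_cases hc : z ∉ s.A ∧ Froz R s
    · have e1 : ind (fun s => z ∉ s.A ∧ Froz R s) s = 1 := by
        unfold ind; rw [if_pos hc]
      rw [e1]
      unfold KK
      rw [if_neg hc.1, ← ENNReal.ofReal_mul (Real.exp_pos _).le, ← Real.exp_add,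
        ← ENNReal.ofReal_one]
      apply ENNReal.ofReal_le_ofReal
      rw [← Real.exp_zero]
      apply Real.exp_le_exp.mpr
      have hLz : (s.L.map (ph θ G z w)).sum = 0 := by
        apply List.sum_eq_zero
        intro v hv
        obtain ⟨x, hx, rfl⟩ := List.mem_map.mp hv
        have hxo : R ^ 2 < nsq x := by
          by_contra hcon
          exact hc.2.1 ⟨x, hx, not_lt.mp hcon⟩
        unfold ph
        rw [hG.out x z hxo, hwo x hxo]
        ring
      have hm : s.m = 0 := hc.2.2
      have hsum : ∑ y ∈ s.A, G y z ≤ Sg := by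
        rw [hSg]
        calc ∑ y ∈ s.A, G y z = ∑ y ∈ s.A.filter (fun y => nsq y ≤ R ^ 2), G y z := by
              rw [Finset.sum_filter]
              apply Finset.sum_congr rfl
              intro y _
              split_ifs with h
              · rfl
              · exact hG.out y z (not_le.mp h)
          _ ≤ ∑ y ∈ BR R, G y z := by
              apply Finset.sum_le_sum_of_subset_of_nonneg
              · intro y hy
                exact mem_BR.mpr (Finset.mem_filter.mp hy).2
              · intro y _ _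
                exact hG.nonneg y z
      unfold exo
      rw [hLz, hm, ← Finset.mul_sum]
      push_cast
      have := mul_le_mul_of_nonneg_left hsum hθ.le
      linarith
    · have e1 : ind (fun s => z ∉ s.A ∧ Froz R s) s = 0 := by
        unfold ind; rw [if_neg hc]
      rw [e1]
      exact zero_le
  refine h1.trans ?_
  rw [Ex_const_mul]
  refine (mul_le_mul_right (hrun n) _).trans ?_
  unfold KK
  simp only
  by_cases hz0 : z ∈ ({0} : Finset V)
  · rw [if_pos hz0, mul_zero]; exact zero_le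
  · rw [if_neg hz0, ← ENNReal.ofReal_mul (Real.exp_pos _).le, ← Real.exp_add]
    apply ENNReal.ofReal_le_ofReal
    apply Real.exp_le_exp.mpr
    unfold exo ph
    simp only [Finset.sum_singleton, List.map_nil, List.sum_nil]
    rw [Nat.cast_sub hT, Nat.cast_one]
    have := mul_nonneg (sq_nonneg θ) (hw 0)
    nlinarith

end Pool.Agent.K1H26.BI5
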